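import Pool.Agent.R282.KO.Loc

/-! Localisation of the kinetic energy inequality by smooth cutoffs: the product rule and the
inequality for one cutoff. -/

set_option autoImplicit false

open MeasureTheory Set Filter Topology Real

namespace Pool.Agent.N96.LF

open LTd Pool.Agent.R282.KO

variable {d : ℕ}

theorem memLp_mul {f : (Fin d → ℝ) → ℂ} (hf : MemLp f 2 volume) {w : (Fin d → ℝ) → ℝ}
    (hw : Continuous w) (hc : HasCompactSupport w) :
    MemLp (fun x => (w x : ℂ) * f x) 2 volume := by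
  obtain ⟨C, hC⟩ := hw.bounded_above_of_compact_support hc
  refine MemLp.of_le_mul (c := C) hf
    ((Complex.continuous_ofReal.comp hw).aestronglyMeasurable.mul hf.1)
    (Eventually.of_forall fun x => ?_)
  rw [norm_mul, Complex.norm_real]
  exact mul_le_mul_of_nonneg_right (hC x) (norm_nonneg _)

theorem int_mul {f : (Fin d → ℝ) → ℂ} (hf : MemLp f 2 volume) {w : (Fin d → ℝ) → ℝ}
    (hw : Continuous w) (hc : HasCompactSupport w) :
    Integrable (fun x => f x * (w x : ℂ)) := by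
  have h1 : MemLp (fun x => (w x : ℂ)) 2 (volume : Measure (Fin d → ℝ)) := by
    have h2 : Continuous fun x => (w x : ℂ) := Complex.continuous_ofReal.comp hw
    refine h2.memLp_of_hasCompactSupport ?_
    exact hc.comp_left (g := fun r : ℝ => (r : ℂ)) Complex.ofReal_zero
  exact hf.integrable_mul h1

theorem pd_cont {χ : (Fin d → ℝ) → ℝ} (hχ : ContDiff ℝ (⊤ : ℕ∞) χ) (k : Fin d) :
    Continuous (pd k χ) :=
  (hχ.continuous_fderiv (by simp)).clm_apply continuous_const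

theorem pd_supp {χ : (Fin d → ℝ) → ℝ} (hc : HasCompactSupport χ) (k : Fin d) :
    HasCompactSupport (pd k χ) :=
  hc.fderiv_apply ℝ (Pi.single k 1)

theorem pd_mul {χ φ : (Fin d → ℝ) → ℝ} (hχ : ContDiff ℝ (⊤ : ℕ∞) χ)
    (hφ : ContDiff ℝ (⊤ : ℕ∞) φ) (k : Fin d) (x : Fin d → ℝ) :
    pd k (fun x => χ x * φ x) x = χ x * pd k φ x + pd k χ x * φ x := by
  unfold pd
  have h1 : DifferentiableAt ℝ χ x := hχ.differentiable (by simp) x
  have h2 : DifferentiableAt ℝ φ x := hφ.differentiable (by simp) x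
  rw [show (fun x => χ x * φ x) = χ * φ from rfl, fderiv_mul h1 h2]
  simp only [ContinuousLinearMap.add_apply, ContinuousLinearMap.smul_apply, smul_eq_mul]
  ring

theorem wgrad_mul {u : (Fin d → ℝ) → ℂ} {g : Fin d → (Fin d → ℝ) → ℂ} (hu : WGradC u g)
    {χ : (Fin d → ℝ) → ℝ} (hχ : ContDiff ℝ (⊤ : ℕ∞) χ) (hc : HasCompactSupport χ) :
    WGradC (fun x => (χ x : ℂ) * u x)
      (fun k x => (χ x : ℂ) * g k x + (pd k χ x : ℂ) * u x) := by
  have hχc := hχ.continuous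
  refine ⟨memLp_mul hu.f2 hχc hc, fun k => (memLp_mul (hu.g2 k) hχc hc).add
    (memLp_mul hu.f2 (pd_cont hχ k) (pd_supp hc k)), fun k φ hφ hφc => ?_⟩
  have h1 := hu.weak k (fun x => χ x * φ x) (hχ.mul hφ) hφc.mul_left
  simp only [pd_mul hχ hφ k] at h1
  have i1 : Integrable fun x => u x * ((χ x * pd k φ x : ℝ) : ℂ) :=
    int_mul hu.f2 (hχc.mul (pd_cont hφ k)) (hc.mul_right)
  have i2 : Integrable fun x => u x * ((pd k χ x * φ x : ℝ) : ℂ) :=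
    int_mul hu.f2 ((pd_cont hχ k).mul hφ.continuous) (hφc.mul_left)
  have i3 : Integrable fun x => g k x * ((χ x * φ x : ℝ) : ℂ) :=
    int_mul (hu.g2 k) (hχc.mul hφ.continuous) (hc.mul_right)
  have e1 : ∀ x, u x * ((χ x * pd k φ x + pd k χ x * φ x : ℝ) : ℂ) =
      u x * ((χ x * pd k φ x : ℝ) : ℂ) + u x * ((pd k χ x * φ x : ℝ) : ℂ) := by
    intro x; push_cast; ring
  simp only [e1] at h1
  rw [integral_add i1 i2] at h1
  have e2 : ∀ x, (χ x : ℂ) * u x * (pd k φ x : ℂ) = u x * ((χ x * pd k φ x : ℝ) : ℂ) := by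
    intro x; push_cast; ring
  have e3 : ∀ x, ((χ x : ℂ) * g k x + (pd k χ x : ℂ) * u x) * (φ x : ℂ) =
      g k x * ((χ x * φ x : ℝ) : ℂ) + u x * ((pd k χ x * φ x : ℝ) : ℂ) := by
    intro x; push_cast; ring
  simp only [e2, e3]
  rw [integral_add i3 i2]
  linear_combination h1

/-- The inequality for one cutoff. -/
theorem cell (hd : 1 ≤ d) {N : ℕ} (u : Fin N → (Fin d → ℝ) → ℂ)
    (g : Fin N → Fin d → (Fin d → ℝ) → ℂ) (hu : ∀ i, WGradC (u i) (g i))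
    {χ : (Fin d → ℝ) → ℝ} (hχ : ContDiff ℝ (⊤ : ℕ∞) χ) (hcs : HasCompactSupport χ)
    (c : ℝ) (hc : 0 < c)
    (hgram : ∀ a : Fin N → ℂ, ∫ x, χ x ^ 2 * ‖∑ i, a i * u i x‖ ^ 2 ≤ c * ∑ i, ‖a i‖ ^ 2) :
    c ^ (-(2 / (d : ℝ))) * ((3 / 4 : ℝ) ^ (1 / (d : ℝ)) * Kcl d) *
        ∫ x, (χ x ^ 2) ^ (1 + 2 / (d : ℝ)) * rho u x ^ (1 + 2 / (d : ℝ)) ≤
      ∑ i, ∑ k, ∫ x, ‖(χ x : ℂ) * g i k x + (pd k χ x : ℂ) * u i x‖ ^ 2 := by
  have hdR : (0 : ℝ) < d := by exact_mod_cast hd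
  set p : ℝ := 1 + 2 / (d : ℝ) with hp
  set K : ℝ := (3 / 4 : ℝ) ^ (1 / (d : ℝ)) * Kcl d with hK
  set r : ℝ := √(c⁻¹) with hr
  have hci : 0 < c⁻¹ := inv_pos.2 hc
  have hr2 : r ^ 2 = c⁻¹ := Real.sq_sqrt hci.le
  have hn : ∀ z : ℂ, ‖(r : ℂ) * z‖ ^ 2 = c⁻¹ * ‖z‖ ^ 2 := by
    intro z
    rw [norm_mul, Complex.norm_real, Real.norm_eq_abs, mul_pow, sq_abs, hr2]
  have hn2 : ∀ (x : Fin d → ℝ) (z : ℂ), ‖(χ x : ℂ) * z‖ ^ 2 = χ x ^ 2 * ‖z‖ ^ 2 := by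
    intro x z
    rw [norm_mul, Complex.norm_real, Real.norm_eq_abs, mul_pow, sq_abs]
  have h1 := sub_thm d hd N (fun i x => (r : ℂ) * ((χ x : ℂ) * u i x))
    (fun i k x => (r : ℂ) * ((χ x : ℂ) * g i k x + (pd k χ x : ℂ) * u i x))
    (fun i => smul_wgrad (wgrad_mul (hu i) hχ hcs) r) ?_
  · have h2 := h1.2
    simp only [hn, integral_const_mul, ← Finset.mul_sum] at h2
    have e1 : ∀ x, (c⁻¹ * ∑ i, ‖(χ x : ℂ) * u i x‖ ^ 2) ^ (1 + 2 / (d : ℝ)) =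
        c⁻¹ ^ p * ((χ x ^ 2) ^ p * rho u x ^ p) := by
      intro x
      have h0 : ∑ i, ‖(χ x : ℂ) * u i x‖ ^ 2 = χ x ^ 2 * rho u x := by
        unfold rho
        rw [Finset.mul_sum]
        exact Finset.sum_congr rfl fun i _ => hn2 x _
      rw [h0, ← hp, Real.mul_rpow hci.le (mul_nonneg (sq_nonneg _) (rho_nonneg u x)),
        Real.mul_rpow (sq_nonneg _) (rho_nonneg u x)]
    simp only [e1, integral_const_mul] at h2
    rw [← hK] at h2
    have e : (c⁻¹ : ℝ) ^ p = c⁻¹ * c ^ (-(2 / (d : ℝ))) := by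
      rw [hp, Real.rpow_add hci, Real.rpow_one, Real.inv_rpow hc.le, Real.rpow_neg hc.le]
    rw [e] at h2
    refine le_of_mul_le_mul_left ?_ hci
    calc c⁻¹ * (c ^ (-(2 / (d : ℝ))) * K * ∫ x, (χ x ^ 2) ^ p * rho u x ^ p)
        = K * (c⁻¹ * c ^ (-(2 / (d : ℝ))) * ∫ x, (χ x ^ 2) ^ p * rho u x ^ p) := by ring
      _ ≤ _ := h2
  · intro a
    have h2 : ∀ x, ‖∑ i, a i * ((r : ℂ) * ((χ x : ℂ) * u i x))‖ ^ 2 =
        c⁻¹ * (χ x ^ 2 * ‖∑ i, a i * u i x‖ ^ 2) := by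
      intro x
      rw [← hn2, ← hn]
      congr 2
      rw [Finset.mul_sum, Finset.mul_sum]
      exact Finset.sum_congr rfl fun i _ => by ring
    simp only [h2, integral_const_mul]
    have h3 := mul_le_mul_of_nonneg_left (hgram a) hci.le
    rwa [← mul_assoc, inv_mul_cancel₀ hc.ne', one_mul] at h3

end Pool.Agent.N96.LF
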