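import Pool.Agent.N96.LF.A

/-! Averages over translated cutoffs. -/

set_option autoImplicit false

open MeasureTheory Set Filter Topology Real
open scoped Convolution

namespace Pool.Agent.N96.LF

open LTd Pool.Agent.R282.KO

variable {d : ℕ}

/-- The integral of `h` with the translated weight. -/
noncomputable def Av (w h : (Fin d → ℝ) → ℝ) (y : Fin d → ℝ) : ℝ := ∫ x, w (x - y) * h x

theorem av_eq (w h : (Fin d → ℝ) → ℝ) :
    Av w h = (h ⋆[ContinuousLinearMap.mul ℝ ℝ, volume] (fun z => w (-z))) := by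
  funext y
  unfold Av convolution
  refine integral_congr_ae (Eventually.of_forall fun x => ?_)
  simp only [ContinuousLinearMap.mul_apply', neg_sub]
  ring

theorem neg_supp {w : (Fin d → ℝ) → ℝ} (hc : HasCompactSupport w) :
    HasCompactSupport fun z => w (-z) :=
  hc.comp_homeomorph (Homeomorph.neg _)

theorem av_cont {w h : (Fin d → ℝ) → ℝ} (hw : Continuous w) (hc : HasCompactSupport w)
    (hh : Integrable h) : Continuous (Av w h) := by
  rw [av_eq]
  exact (neg_supp hc).continuous_convolution_right _ hh.locallyIntegrable (hw.comp continuous_neg)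

theorem av_int {w h : (Fin d → ℝ) → ℝ} (hw : Continuous w) (hc : HasCompactSupport w)
    (hh : Integrable h) : Integrable (Av w h) := by
  rw [av_eq]
  exact hh.integrable_convolution _
    ((hw.comp continuous_neg).integrable_of_hasCompactSupport (neg_supp hc))

theorem av_integral {w h : (Fin d → ℝ) → ℝ} (hw : Continuous w) (hc : HasCompactSupport w)
    (hh : Integrable h) : ∫ y, Av w h y = (∫ x, w x) * ∫ x, h x := by
  have hi : Integrable fun z : Fin d → ℝ => w (-z) :=
    (hw.comp continuous_neg).integrable_of_hasCompactSupport (neg_supp hc)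
  rw [av_eq, integral_convolution _ hh hi]
  have h1 : ∫ z, w (-z) = ∫ z, w z := integral_neg_eq_self w volume
  rw [h1, ContinuousLinearMap.mul_apply', mul_comm]

theorem av_integrand {w h : (Fin d → ℝ) → ℝ} (hw : Continuous w) (hc : HasCompactSupport w)
    (hh : Integrable h) (y : Fin d → ℝ) : Integrable fun x => w (x - y) * h x := by
  obtain ⟨C, hC⟩ := hw.bounded_above_of_compact_support hc
  refine Integrable.bdd_mul hh ?_ (c := C) (Eventually.of_forall fun x => hC _)
  exact (hw.comp (continuous_id.sub continuous_const)).aestronglyMeasurable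

theorem norm_exp (a b : ℝ) (z w : ℂ) : ‖(a : ℂ) * z + (b : ℂ) * w‖ ^ 2 =
    a ^ 2 * ‖z‖ ^ 2 + b ^ 2 * ‖w‖ ^ 2 + 2 * (a * b * (z.re * w.re + z.im * w.im)) := by
  simp only [Complex.sq_norm, Complex.normSq_apply, Complex.add_re, Complex.add_im, Complex.mul_re,
    Complex.mul_im, Complex.ofReal_re, Complex.ofReal_im]
  ring

theorem cross_zero {χ : (Fin d → ℝ) → ℝ} (hχ : ContDiff ℝ (⊤ : ℕ∞) χ) (hc : HasCompactSupport χ)
    (k : Fin d) : ∫ x, χ x * pd k χ x = 0 := by
  have hi : Integrable fun x => χ x * pd k χ x :=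
    (hχ.continuous.mul (pd_cont hχ k)).integrable_of_hasCompactSupport hc.mul_right
  have hi' : Integrable fun x => pd k χ x * χ x :=
    hi.congr (Eventually.of_forall fun x => mul_comm _ _)
  have hd : Differentiable ℝ χ := hχ.differentiable (by simp)
  have h := integral_mul_fderiv_eq_neg_fderiv_mul_of_integrable (f := χ) (g := χ)
    (v := (Pi.single k 1 : Fin d → ℝ)) (μ := volume) hi' hi
    ((hχ.continuous.mul hχ.continuous).integrable_of_hasCompactSupport hc.mul_right)
    (fun x _ => hd x) (fun x _ => hd x)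
  have h2 : ∫ x, fderiv ℝ χ x (Pi.single k 1) * χ x = ∫ x, χ x * pd k χ x :=
    integral_congr_ae (Eventually.of_forall fun x => mul_comm _ _)
  rw [h2] at h
  have h3 : ∫ x, χ x * pd k χ x = - ∫ x, χ x * pd k χ x := h
  linarith

theorem pd_sub (χ : (Fin d → ℝ) → ℝ) (y : Fin d → ℝ) (k : Fin d) (x : Fin d → ℝ) :
    pd k (fun x => χ (x - y)) x = pd k χ (x - y) := by
  unfold pd
  rw [fderiv_comp_sub]

/-- The mixed density. -/
noncomputable def Z (u v : (Fin d → ℝ) → ℂ) (x : Fin d → ℝ) : ℝ :=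
  (v x).re * (u x).re + (v x).im * (u x).im

theorem Z_int {u v : (Fin d → ℝ) → ℂ} (hu : MemLp u 2 volume) (hv : MemLp v 2 volume) :
    Integrable (Z u v) :=
  (hv.re.integrable_mul hu.re).add (hv.im.integrable_mul hu.im)

theorem term_eq {u v : (Fin d → ℝ) → ℂ} (hu : MemLp u 2 volume) (hv : MemLp v 2 volume)
    {χ : (Fin d → ℝ) → ℝ} (hχ : ContDiff ℝ (⊤ : ℕ∞) χ) (hc : HasCompactSupport χ) (k : Fin d)
    (y : Fin d → ℝ) :
    ∫ x, ‖(χ (x - y) : ℂ) * v x + (pd k (fun x => χ (x - y)) x : ℂ) * u x‖ ^ 2 =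
      Av (fun x => χ x ^ 2) (fun x => ‖v x‖ ^ 2) y +
      Av (fun x => pd k χ x ^ 2) (fun x => ‖u x‖ ^ 2) y +
      2 * Av (fun x => χ x * pd k χ x) (Z u v) y := by
  have hs := hc.comp_left (g := fun t : ℝ => t ^ 2) (by norm_num)
  have hs' := (pd_supp hc k).comp_left (g := fun t : ℝ => t ^ 2) (by norm_num)
  have i1 := av_integrand (w := fun x => χ x ^ 2) (h := fun x => ‖v x‖ ^ 2)
    (hχ.continuous.pow 2) hs (hv.integrable_norm_pow two_ne_zero) y
  have i2 := av_integrand (w := fun x => pd k χ x ^ 2) (h := fun x => ‖u x‖ ^ 2)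
    ((pd_cont hχ k).pow 2) hs' (hu.integrable_norm_pow two_ne_zero) y
  have i3 := av_integrand (w := fun x => χ x * pd k χ x) (h := Z u v)
    (hχ.continuous.mul (pd_cont hχ k)) hc.mul_right (Z_int hu hv) y
  have h1 := integral_add i1 i2
  have h2 := integral_add (i1.add i2) (i3.const_mul 2)
  rw [integral_const_mul] at h2
  unfold Av
  rw [← h1]
  refine Eq.trans ?_ h2
  refine integral_congr_ae (Eventually.of_forall fun x => ?_)
  simp only [pd_sub, norm_exp, Pi.add_apply]
  unfold Z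
  ring

theorem term_int {u v : (Fin d → ℝ) → ℂ} (hu : MemLp u 2 volume) (hv : MemLp v 2 volume)
    {χ : (Fin d → ℝ) → ℝ} (hχ : ContDiff ℝ (⊤ : ℕ∞) χ) (hc : HasCompactSupport χ) (k : Fin d) :
    Integrable (fun y => ∫ x, ‖(χ (x - y) : ℂ) * v x +
      (pd k (fun x => χ (x - y)) x : ℂ) * u x‖ ^ 2) ∧
    ∫ y, ∫ x, ‖(χ (x - y) : ℂ) * v x + (pd k (fun x => χ (x - y)) x : ℂ) * u x‖ ^ 2 =
      (∫ x, χ x ^ 2) * (∫ x, ‖v x‖ ^ 2) + (∫ x, pd k χ x ^ 2) * ∫ x, ‖u x‖ ^ 2 := by
  have hs := hc.comp_left (g := fun t : ℝ => t ^ 2) (by norm_num)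
  have hs' := (pd_supp hc k).comp_left (g := fun t : ℝ => t ^ 2) (by norm_num)
  have hv2 : Integrable (fun x => ‖v x‖ ^ 2) := hv.integrable_norm_pow two_ne_zero
  have hu2 : Integrable (fun x => ‖u x‖ ^ 2) := hu.integrable_norm_pow two_ne_zero
  have j1 := av_int (w := fun x => χ x ^ 2) (hχ.continuous.pow 2) hs hv2
  have j2 := av_int (w := fun x => pd k χ x ^ 2) ((pd_cont hχ k).pow 2) hs' hu2
  have j3 := av_int (w := fun x => χ x * pd k χ x) (hχ.continuous.mul (pd_cont hχ k))
    hc.mul_right (Z_int hu hv)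
  have e1 := av_integral (w := fun x => χ x ^ 2) (hχ.continuous.pow 2) hs hv2
  have e2 := av_integral (w := fun x => pd k χ x ^ 2) ((pd_cont hχ k).pow 2) hs' hu2
  have e3 := av_integral (w := fun x => χ x * pd k χ x) (hχ.continuous.mul (pd_cont hχ k))
    hc.mul_right (Z_int hu hv)
  rw [cross_zero hχ hc k, zero_mul] at e3
  simp only [term_eq hu hv hχ hc k]
  refine ⟨(j1.add j2).add (j3.const_mul 2), ?_⟩
  have h1 := integral_add (j1.add j2) (j3.const_mul 2)
  have h2 := integral_add j1 j2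
  rw [integral_const_mul, e3, mul_zero, add_zero] at h1
  rw [e1, e2] at h2
  exact h1.trans h2

end Pool.Agent.N96.LF
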