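import Pool.Agent.N96.LF.B

/-! The averaged kinetic energy inequality. -/

set_option autoImplicit false

open MeasureTheory Set Filter Topology Real

namespace Pool.Agent.N96.LF

open LTd Pool.Agent.R282.KO

variable {d : ℕ}

theorem kcl_nonneg (d : ℕ) : 0 ≤ Kcl d := by
  unfold Kcl
  positivity

theorem sum_memLp {N : ℕ} (u : Fin N → (Fin d → ℝ) → ℂ) (hu : ∀ i, MemLp (u i) 2 volume)
    (a : Fin N → ℂ) : MemLp (fun x => ∑ i, a i * u i x) 2 volume := by
  have h := memLp_finset_sum (μ := (volume : Measure (Fin d → ℝ))) (p := 2) Finset.univ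
    (f := fun i x => a i * u i x) (fun i _ => (hu i).const_mul (a i))
  exact h

theorem avg (hd : 1 ≤ d) {N : ℕ} (u : Fin N → (Fin d → ℝ) → ℂ)
    (g : Fin N → Fin d → (Fin d → ℝ) → ℂ) (hu : ∀ i, WGradC (u i) (g i)) (hsub : SubGram u)
    {χ : (Fin d → ℝ) → ℝ} (hχ : ContDiff ℝ (⊤ : ℕ∞) χ) (hcs : HasCompactSupport χ)
    (h0 : ∀ x, 0 ≤ χ x) (h1 : ∀ x, χ x ≤ 1) (c : ℝ) (hc : 0 < c) (hc1 : c ≤ 1)
    (S : Set (Fin d → ℝ)) (hS : MeasurableSet S)
    (hout : ∀ x y, x ∉ S → χ (x - y) ≠ 0 → ∀ a : Fin N → ℂ,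
      ∫ z, χ (z - y) ^ 2 * ‖∑ i, a i * u i z‖ ^ 2 ≤ c * ∑ i, ‖a i‖ ^ 2) :
    Integrable (fun x => rho u x ^ (1 + 2 / (d : ℝ))) ∧
    c ^ (-(2 / (d : ℝ))) * ((3 / 4 : ℝ) ^ (1 / (d : ℝ)) * Kcl d) *
        ((∫ x, (χ x ^ 2) ^ (1 + 2 / (d : ℝ))) * ∫ x, rho u x ^ (1 + 2 / (d : ℝ))) ≤
      (∫ x, χ x ^ 2) * kin g + (∑ k, ∫ x, pd k χ x ^ 2) * (∑ i, ∫ x, ‖u i x‖ ^ 2) +
      (c ^ (-(2 / (d : ℝ))) - 1) * ((3 / 4 : ℝ) ^ (1 / (d : ℝ)) * Kcl d) *
        ((∫ x, (χ x ^ 2) ^ (1 + 2 / (d : ℝ))) * ∫ x in S, rho u x ^ (1 + 2 / (d : ℝ))) := by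
  classical
  have hdR : (0 : ℝ) < d := by exact_mod_cast hd
  set p : ℝ := 1 + 2 / (d : ℝ) with hp
  have hp0 : 0 < p := by rw [hp]; positivity
  set K : ℝ := (3 / 4 : ℝ) ^ (1 / (d : ℝ)) * Kcl d with hK
  have hK0 : 0 ≤ K := mul_nonneg (by positivity) (kcl_nonneg d)
  set C : ℝ := c ^ (-(2 / (d : ℝ))) with hC
  have hC1 : 1 ≤ C := Real.one_le_rpow_of_pos_of_le_one_of_nonpos hc hc1 (by
    have : 0 < 2 / (d : ℝ) := by positivity
    linarith)
  have hPi : Integrable (fun x => rho u x ^ p) := (sub_thm d hd N u g hu hsub).1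
  refine ⟨hPi, ?_⟩
  set P : (Fin d → ℝ) → ℝ := fun x => rho u x ^ p with hP
  have hP0 : ∀ x, 0 ≤ P x := fun x => Real.rpow_nonneg (rho_nonneg u x) _
  set w : (Fin d → ℝ) → ℝ := fun x => (χ x ^ 2) ^ p with hw
  have hw0 : ∀ x, 0 ≤ w x := fun x => Real.rpow_nonneg (sq_nonneg _) _
  have hwc : Continuous w := (hχ.continuous.pow 2).rpow_const fun x => Or.inr hp0.le
  have hws : HasCompactSupport w := by
    refine hcs.comp_left (g := fun t : ℝ => (t ^ 2) ^ p) ?_
    show ((0 : ℝ) ^ 2) ^ p = 0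
    rw [zero_pow two_ne_zero, Real.zero_rpow hp0.ne']
  have hPS : Integrable (S.indicator P) := hPi.indicator hS
  set T : (Fin d → ℝ) → ℝ := fun y => ∑ i, ∑ k, ∫ x, ‖(χ (x - y) : ℂ) * g i k x +
    (pd k (fun x => χ (x - y)) x : ℂ) * u i x‖ ^ 2 with hT
  have avS0 : ∀ y, 0 ≤ Av w (S.indicator P) y := fun y =>
    integral_nonneg fun x => mul_nonneg (hw0 _) (indicator_nonneg (fun x _ => hP0 x) x)
  have point : ∀ y, C * K * Av w P y ≤ T y + (C - 1) * K * Av w (S.indicator P) y := by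
    intro y
    have hχy : ContDiff ℝ (⊤ : ℕ∞) fun x => χ (x - y) := hχ.comp (contDiff_id.sub contDiff_const)
    have hcy : HasCompactSupport fun x => χ (x - y) :=
      hcs.comp_homeomorph (Homeomorph.subRight y)
    by_cases h : ∀ a : Fin N → ℂ, ∫ z, χ (z - y) ^ 2 * ‖∑ i, a i * u i z‖ ^ 2 ≤ c * ∑ i, ‖a i‖ ^ 2
    · have h2 : C * K * Av w P y ≤ T y := cell hd u g hu hχy hcy c hc h
      have h3 : 0 ≤ (C - 1) * K * Av w (S.indicator P) y :=
        mul_nonneg (mul_nonneg (by linarith) hK0) (avS0 y)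
      linarith
    · have hin : ∀ x, χ (x - y) ≠ 0 → x ∈ S := by
        intro x hx
        by_contra hxS
        exact h (hout x y hxS hx)
      have h4 : Av w P y = Av w (S.indicator P) y := by
        unfold Av
        refine integral_congr_ae (Eventually.of_forall fun x => ?_)
        show w (x - y) * P x = w (x - y) * S.indicator P x
        by_cases hx : χ (x - y) = 0
        · have : w (x - y) = 0 := by
            simp only [hw, hx]
            rw [zero_pow two_ne_zero, Real.zero_rpow hp0.ne']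
          rw [this, zero_mul, zero_mul]
        · rw [indicator_of_mem (hin x hx)]
      have h5 : ∀ a : Fin N → ℂ,
          ∫ z, χ (z - y) ^ 2 * ‖∑ i, a i * u i z‖ ^ 2 ≤ 1 * ∑ i, ‖a i‖ ^ 2 := by
        intro a
        rw [one_mul]
        refine le_trans ?_ (hsub a)
        have hi : Integrable fun z => ‖∑ i, a i * u i z‖ ^ 2 :=
          (sum_memLp u (fun i => (hu i).f2) a).integrable_norm_pow two_ne_zero
        refine integral_mono ?_ hi fun z => ?_
        · exact av_integrand (w := fun x => χ x ^ 2) (hχ.continuous.pow 2)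
            (hcs.comp_left (g := fun t : ℝ => t ^ 2) (by norm_num)) hi y
        · have h6 : χ (z - y) ^ 2 ≤ 1 := pow_le_one₀ (h0 _) (h1 _)
          calc χ (z - y) ^ 2 * ‖∑ i, a i * u i z‖ ^ 2 ≤ 1 * ‖∑ i, a i * u i z‖ ^ 2 :=
                mul_le_mul_of_nonneg_right h6 (by positivity)
            _ = _ := one_mul _
      have h7 := cell hd u g hu hχy hcy 1 one_pos h5
      rw [Real.one_rpow, one_mul] at h7
      have h8 : K * Av w P y ≤ T y := h7
      rw [← h4]
      calc C * K * Av w P y = K * Av w P y + (C - 1) * K * Av w P y := by ring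
        _ ≤ _ := by linarith
  have hTi : Integrable T ∧ ∫ y, T y = (∫ x, χ x ^ 2) * kin g +
      (∑ k, ∫ x, pd k χ x ^ 2) * (∑ i, ∫ x, ‖u i x‖ ^ 2) := by
    have ht := fun i k => term_int (hu i).f2 ((hu i).g2 k) hχ hcs k
    constructor
    · exact integrable_finsetSum _ fun i _ => integrable_finsetSum _ fun k _ => (ht i k).1
    · show ∫ y, ∑ i, ∑ k, ∫ x, ‖(χ (x - y) : ℂ) * g i k x +
        (pd k (fun x => χ (x - y)) x : ℂ) * u i x‖ ^ 2 = _
      rw [integral_finsetSum _ fun i _ => integrable_finsetSum _ fun k _ => (ht i k).1]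
      have e1 : ∀ i, ∫ y, ∑ k, ∫ x, ‖(χ (x - y) : ℂ) * g i k x +
          (pd k (fun x => χ (x - y)) x : ℂ) * u i x‖ ^ 2 =
          (∫ x, χ x ^ 2) * (∑ k, ∫ x, ‖g i k x‖ ^ 2) +
            (∑ k, ∫ x, pd k χ x ^ 2) * ∫ x, ‖u i x‖ ^ 2 := by
        intro i
        rw [integral_finsetSum _ fun k _ => (ht i k).1, Finset.mul_sum, Finset.sum_mul,
          ← Finset.sum_add_distrib]
        exact Finset.sum_congr rfl fun k _ => (ht i k).2
      rw [Finset.sum_congr rfl fun i _ => e1 i, Finset.sum_add_distrib, ← Finset.mul_sum,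
        ← Finset.mul_sum]
      rfl
  have hI := integral_mono ((av_int hwc hws hPi).const_mul (C * K))
    (hTi.1.add ((av_int hwc hws hPS).const_mul ((C - 1) * K))) point
  have e2 : ∫ y, (T + fun y => (C - 1) * K * Av w (S.indicator P) y) y =
      (∫ y, T y) + (C - 1) * K * ∫ y, Av w (S.indicator P) y := by
    rw [← integral_const_mul]
    exact integral_add hTi.1 ((av_int hwc hws hPS).const_mul ((C - 1) * K))
  rw [e2, integral_const_mul, av_integral hwc hws hPi, av_integral hwc hws hPS, hTi.2,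
    integral_indicator hS] at hI
  exact hI

end Pool.Agent.N96.LF
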