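import Pool.Agent.N96.LF.C

/-! Bump functions, the set of concentration points and the localised inequality. -/

set_option autoImplicit false

open MeasureTheory Set Filter Topology Real

namespace Pool.Agent.N96.LF

open LTd Pool.Agent.R282.KO

variable {d : ℕ}

theorem bump (hd : 1 ≤ d) (κ : ℝ) (hκ : 1 < κ) : ∃ φ : (Fin d → ℝ) → ℝ,
    ContDiff ℝ (⊤ : ℕ∞) φ ∧ HasCompactSupport φ ∧ (∀ x, 0 ≤ φ x) ∧ (∀ x, φ x ≤ 1) ∧
    (∀ x, φ x ≠ 0 → ‖x‖ < 1) ∧ 0 < ∫ x, (φ x ^ 2) ^ (1 + 2 / (d : ℝ)) ∧
    ∫ x, φ x ^ 2 ≤ κ * ∫ x, (φ x ^ 2) ^ (1 + 2 / (d : ℝ)) := by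
  have hdR : (0 : ℝ) < d := by exact_mod_cast hd
  have hκ0 : 0 < κ := by linarith
  set p : ℝ := 1 + 2 / (d : ℝ) with hp
  have hp0 : 0 < p := by rw [hp]; positivity
  set r : ℝ := κ⁻¹ ^ (1 / (d : ℝ)) with hr
  have hr0 : 0 < r := Real.rpow_pos_of_pos (inv_pos.2 hκ0) _
  have hr1 : r < 1 := Real.rpow_lt_one (inv_pos.2 hκ0).le (inv_lt_one_of_one_lt₀ hκ) (by positivity)
  have hrd : r ^ d = κ⁻¹ := by
    rw [hr, ← Real.rpow_natCast, ← Real.rpow_mul (inv_pos.2 hκ0).le]
    rw [one_div, inv_mul_cancel₀ hdR.ne', Real.rpow_one]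
  let b : ContDiffBump (0 : Fin d → ℝ) := ⟨r, 1, hr0, hr1⟩
  have hbc : ContDiff ℝ (⊤ : ℕ∞) (b : (Fin d → ℝ) → ℝ) := b.contDiff
  have hbs : HasCompactSupport (b : (Fin d → ℝ) → ℝ) := b.hasCompactSupport
  have hsupp : ∀ x, (b : (Fin d → ℝ) → ℝ) x ≠ 0 → ‖x‖ < 1 := by
    intro x hx
    have h1 : x ∈ Function.support (b : (Fin d → ℝ) → ℝ) := hx
    rw [b.support_eq, Metric.mem_ball, dist_zero_right] at h1
    exact h1
  have hone : ∀ x ∈ Metric.closedBall (0 : Fin d → ℝ) r, (b : (Fin d → ℝ) → ℝ) x = 1 :=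
    fun x hx => b.one_of_mem_closedBall hx
  have hwc : Continuous fun x => ((b : (Fin d → ℝ) → ℝ) x ^ 2) ^ p :=
    (hbc.continuous.pow 2).rpow_const fun x => Or.inr hp0.le
  have hws : HasCompactSupport fun x => ((b : (Fin d → ℝ) → ℝ) x ^ 2) ^ p := by
    refine hbs.comp_left (g := fun t : ℝ => (t ^ 2) ^ p) ?_
    show ((0 : ℝ) ^ 2) ^ p = 0
    rw [zero_pow two_ne_zero, Real.zero_rpow hp0.ne']
  have hwi := hwc.integrable_of_hasCompactSupport hws (μ := volume)
  have h2s : HasCompactSupport fun x => (b : (Fin d → ℝ) → ℝ) x ^ 2 :=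
    hbs.comp_left (g := fun t : ℝ => t ^ 2) (by norm_num)
  have h2c : Continuous fun x => (b : (Fin d → ℝ) → ℝ) x ^ 2 := hbc.continuous.pow 2
  have h2i : Integrable (fun x => (b : (Fin d → ℝ) → ℝ) x ^ 2) volume :=
    h2c.integrable_of_hasCompactSupport h2s
  have hvol : ∀ s : ℝ, 0 ≤ s → (volume (Metric.closedBall (0 : Fin d → ℝ) s)).toReal =
      (2 * s) ^ d := by
    intro s hs
    rw [Real.volume_pi_closedBall _ hs, Fintype.card_fin, ENNReal.toReal_ofReal (by positivity)]
  have hfin : ∀ s : ℝ, volume (Metric.closedBall (0 : Fin d → ℝ) s) ≠ ⊤ := fun s =>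
    measure_closedBall_lt_top.ne
  have hind : ∀ s : ℝ, 0 ≤ s →
      Integrable ((Metric.closedBall (0 : Fin d → ℝ) s).indicator fun _ => (1 : ℝ)) volume ∧
      ∫ x, (Metric.closedBall (0 : Fin d → ℝ) s).indicator (fun _ => (1 : ℝ)) x = (2 * s) ^ d := by
    intro s hs
    constructor
    · exact (integrable_indicator_iff Metric.isClosed_closedBall.measurableSet).2
        (integrableOn_const (hfin s))
    · rw [integral_indicator Metric.isClosed_closedBall.measurableSet, setIntegral_const,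
        smul_eq_mul, mul_one, measureReal_def, hvol s hs]
  have hlow : (2 * r) ^ d ≤ ∫ x, ((b : (Fin d → ℝ) → ℝ) x ^ 2) ^ p := by
    rw [← (hind r hr0.le).2]
    refine integral_mono (hind r hr0.le).1 hwi fun x => ?_
    by_cases hx : x ∈ Metric.closedBall (0 : Fin d → ℝ) r
    · rw [indicator_of_mem hx]
      show (1 : ℝ) ≤ ((b : (Fin d → ℝ) → ℝ) x ^ 2) ^ p
      rw [hone x hx, one_pow, Real.one_rpow]
    · rw [indicator_of_notMem hx]
      exact Real.rpow_nonneg (sq_nonneg _) _
  have hup : ∫ x, (b : (Fin d → ℝ) → ℝ) x ^ 2 ≤ (2 * 1) ^ d := by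
    rw [← (hind 1 zero_le_one).2]
    refine integral_mono h2i (hind 1 zero_le_one).1 fun x => ?_
    by_cases hx : x ∈ Metric.closedBall (0 : Fin d → ℝ) 1
    · rw [indicator_of_mem hx]
      exact pow_le_one₀ b.nonneg b.le_one
    · rw [indicator_of_notMem hx]
      have h3 : (b : (Fin d → ℝ) → ℝ) x = 0 := by
        by_contra h4
        exact hx (by
          rw [Metric.mem_closedBall, dist_zero_right]
          exact (hsupp x h4).le)
      show (b : (Fin d → ℝ) → ℝ) x ^ 2 ≤ 0
      rw [h3]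
      norm_num
  refine ⟨b, hbc, hbs, fun x => b.nonneg, fun x => b.le_one, hsupp,
    lt_of_lt_of_le (by positivity) hlow, ?_⟩
  calc ∫ x, (b : (Fin d → ℝ) → ℝ) x ^ 2 ≤ (2 * 1) ^ d := hup
    _ = κ * (2 * r) ^ d := by
        rw [mul_pow, mul_pow, hrd, one_pow]
        field_simp
    _ ≤ _ := mul_le_mul_of_nonneg_left hlow hκ0.le

/-- The integrals over the cubes are lower semicontinuous functions of the centre. -/
theorem conc_open {F : (Fin d → ℝ) → ℝ} (hF : Integrable F) (hF0 : ∀ x, 0 ≤ F x) (t R : ℝ)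
    (hR : 0 < R) : IsOpen {x : Fin d → ℝ | t < ∫ z in Metric.ball x R, F z} := by
  have hn : ∀ n : ℕ, (0 : ℝ) < n + 2 := fun n => by positivity
  have hin : ∀ n : ℕ, 0 < R * (1 - 1 / ((n : ℝ) + 2)) := fun n => by
    refine mul_pos hR ?_
    have : 1 / ((n : ℝ) + 2) < 1 := by
      rw [div_lt_one (hn n)]
      have : (0 : ℝ) ≤ n := Nat.cast_nonneg n
      linarith
    linarith
  have hout : ∀ n : ℕ, R * (1 - 1 / ((n : ℝ) + 2)) < R := fun n => by
    have h1 : 0 < 1 / ((n : ℝ) + 2) := by have := hn n; positivity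
    nlinarith
  let b : ℕ → ContDiffBump (0 : Fin d → ℝ) := fun n =>
    ⟨R * (1 - 1 / ((n : ℝ) + 2)), R, hin n, hout n⟩
  have hbc : ∀ n, Continuous (b n : (Fin d → ℝ) → ℝ) := fun n => (b n).continuous
  have hbs : ∀ n, HasCompactSupport (b n : (Fin d → ℝ) → ℝ) := fun n => (b n).hasCompactSupport
  have hsupp : ∀ n x, (b n : (Fin d → ℝ) → ℝ) x ≠ 0 → ‖x‖ < R := by
    intro n x hx
    have h1 : x ∈ Function.support (b n : (Fin d → ℝ) → ℝ) := hx
    rw [(b n).support_eq, Metric.mem_ball, dist_zero_right] at h1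
    exact h1
  have hle : ∀ (n : ℕ) (x z : Fin d → ℝ),
      (b n : (Fin d → ℝ) → ℝ) (z - x) * F z ≤ (Metric.ball x R).indicator F z := by
    intro n x z
    by_cases hz : z ∈ Metric.ball x R
    · rw [indicator_of_mem hz]
      calc (b n : (Fin d → ℝ) → ℝ) (z - x) * F z ≤ 1 * F z :=
            mul_le_mul_of_nonneg_right (b n).le_one (hF0 z)
        _ = F z := one_mul _
    · rw [indicator_of_notMem hz]
      have h3 : (b n : (Fin d → ℝ) → ℝ) (z - x) = 0 := by
        by_contra h4
        exact hz (by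
          rw [Metric.mem_ball, dist_eq_norm]
          exact hsupp n _ h4)
      rw [h3, zero_mul]
  have hset : {x : Fin d → ℝ | t < ∫ z in Metric.ball x R, F z} =
      ⋃ n, {x | t < Av (b n : (Fin d → ℝ) → ℝ) F x} := by
    ext x
    simp only [mem_setOf_eq, mem_iUnion]
    have hbi : Integrable ((Metric.ball x R).indicator F) := hF.indicator Metric.isOpen_ball.measurableSet
    rw [← integral_indicator Metric.isOpen_ball.measurableSet]
    constructor
    · intro hx
      have hlim : Tendsto (fun n => Av (b n : (Fin d → ℝ) → ℝ) F x) atTop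
          (𝓝 (∫ z, (Metric.ball x R).indicator F z)) := by
        refine tendsto_integral_of_dominated_convergence ((Metric.ball x R).indicator F)
          (fun n => (av_integrand (hbc n) (hbs n) hF x).aestronglyMeasurable) hbi
          (fun n => Eventually.of_forall fun z => ?_) (Eventually.of_forall fun z => ?_)
        · rw [Real.norm_of_nonneg (mul_nonneg (b n).nonneg (hF0 z))]
          exact hle n x z
        · by_cases hz : z ∈ Metric.ball x R
          · rw [indicator_of_mem hz]
            have hz' : ‖z - x‖ < R := by rwa [Metric.mem_ball, dist_eq_norm] at hz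
            have h5 : Tendsto (fun n : ℕ => R * (1 - 1 / ((n : ℝ) + 2))) atTop (𝓝 (R * (1 - 0))) := by
              refine Tendsto.const_mul R (tendsto_const_nhds.sub ?_)
              have h6 : Tendsto (fun n : ℕ => (n : ℝ) + 2) atTop atTop :=
                tendsto_atTop_add_const_right _ _ tendsto_natCast_atTop_atTop
              exact (tendsto_const_nhds (x := (1 : ℝ))).div_atTop h6
            rw [sub_zero, mul_one] at h5
            have h7 : ∀ᶠ n : ℕ in atTop, ‖z - x‖ < R * (1 - 1 / ((n : ℝ) + 2)) :=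
              h5.eventually (lt_mem_nhds hz')
            refine tendsto_const_nhds.congr' ?_
            filter_upwards [h7] with n hn7
            have h8 : (b n : (Fin d → ℝ) → ℝ) (z - x) = 1 :=
              (b n).one_of_mem_closedBall (by
                rw [Metric.mem_closedBall, dist_zero_right]
                exact hn7.le)
            rw [h8, one_mul]
          · rw [indicator_of_notMem hz]
            refine tendsto_const_nhds.congr fun n => ?_
            have h3 : (b n : (Fin d → ℝ) → ℝ) (z - x) = 0 := by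
              by_contra h4
              exact hz (by
                rw [Metric.mem_ball, dist_eq_norm]
                exact hsupp n _ h4)
            rw [h3, zero_mul]
      exact (hlim.eventually (lt_mem_nhds hx)).exists
    · rintro ⟨n, hn⟩
      refine lt_of_lt_of_le hn ?_
      exact integral_mono (av_integrand (hbc n) (hbs n) hF x) hbi fun z => hle n x z
  rw [hset]
  exact isOpen_iUnion fun n => isOpen_lt continuous_const (av_cont (hbc n) (hbs n) hF)

end Pool.Agent.N96.LF
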