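import Pool.Agent.N96.LF.D

/-! The localised inequality with scaled cutoffs, and the proportion of the concentration points. -/

set_option autoImplicit false

open MeasureTheory Set Filter Topology Real

namespace Pool.Agent.N96.LF

open LTd Pool.Agent.R282.KO

variable {d : ℕ}

theorem pd_scale {φ : (Fin d → ℝ) → ℝ} (hφ : ContDiff ℝ (⊤ : ℕ∞) φ) (s : ℝ) (k : Fin d)
    (x : Fin d → ℝ) : pd k (fun x => φ (s • x)) x = s * pd k φ (s • x) := by
  have h1 : HasFDerivAt (fun x : Fin d → ℝ => φ (s • x))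
      ((fderiv ℝ φ (s • x)).comp (s • ContinuousLinearMap.id ℝ (Fin d → ℝ))) x := by
    have h2 : HasFDerivAt φ (fderiv ℝ φ (s • x)) (s • x) :=
      (hφ.differentiable (by simp) _).hasFDerivAt
    have h3 : HasFDerivAt (fun x : Fin d → ℝ => s • x)
        (s • ContinuousLinearMap.id ℝ (Fin d → ℝ)) x := (hasFDerivAt_id x).const_smul s
    exact h2.comp x h3
  unfold pd
  rw [h1.fderiv]
  simp

/-- The set of the points at which some normalized function of the span has more than the mass `c`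
in the cube of side `2 R`. -/
def Conc {N : ℕ} (u : Fin N → (Fin d → ℝ) → ℂ) (R c : ℝ) : Set (Fin d → ℝ) :=
  {x | ∃ a : Fin N → ℂ, ∑ i, ‖a i‖ ^ 2 = 1 ∧ c < ∫ z in Metric.ball x R, ‖∑ i, a i * u i z‖ ^ 2}

theorem conc_isOpen {N : ℕ} (u : Fin N → (Fin d → ℝ) → ℂ) (hu : ∀ i, MemLp (u i) 2 volume)
    (R c : ℝ) (hR : 0 < R) : IsOpen (Conc u R c) := by
  have e : Conc u R c = ⋃ a ∈ {a : Fin N → ℂ | ∑ i, ‖a i‖ ^ 2 = 1},
      {x | c < ∫ z in Metric.ball x R, ‖∑ i, a i * u i z‖ ^ 2} := by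
    ext x
    simp only [Conc, mem_iUnion, exists_prop]
    rfl
  rw [e]
  refine isOpen_biUnion fun a _ => ?_
  exact conc_open ((sum_memLp u hu a).integrable_norm_pow two_ne_zero) (fun x => by positivity) c R hR

theorem spread {N : ℕ} (u : Fin N → (Fin d → ℝ) → ℂ) (R c : ℝ) (hc : 0 ≤ c) {x : Fin d → ℝ}
    (hx : x ∉ Conc u R c) (a : Fin N → ℂ) :
    ∫ z in Metric.ball x R, ‖∑ i, a i * u i z‖ ^ 2 ≤ c * ∑ i, ‖a i‖ ^ 2 := by
  by_cases hs : ∑ i, ‖a i‖ ^ 2 = 0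
  · have h0 : ∀ i, a i = 0 := by
      intro i
      have h1 := (Finset.sum_eq_zero_iff_of_nonneg (fun i _ => by positivity)).1 hs i
        (Finset.mem_univ i)
      exact norm_eq_zero.1 (pow_eq_zero_iff two_ne_zero |>.1 h1)
    simp [h0]
  · have hs0 : 0 < ∑ i, ‖a i‖ ^ 2 :=
      lt_of_le_of_ne (Finset.sum_nonneg fun i _ => by positivity) (Ne.symm hs)
    set s : ℝ := ∑ i, ‖a i‖ ^ 2 with hsd
    have hsc : √(s⁻¹) ^ 2 = s⁻¹ := Real.sq_sqrt (inv_pos.2 hs0).le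
    have hn : ∀ z : ℂ, ‖(√(s⁻¹) : ℂ) * z‖ ^ 2 = s⁻¹ * ‖z‖ ^ 2 := by
      intro z
      rw [norm_mul, Complex.norm_real, Real.norm_eq_abs, mul_pow, sq_abs, hsc]
    have h1 : ¬ c < ∫ z in Metric.ball x R, ‖∑ i, ((√(s⁻¹) : ℝ) : ℂ) * a i * u i z‖ ^ 2 := by
      intro h
      refine hx ⟨fun i => ((√(s⁻¹) : ℝ) : ℂ) * a i, ?_, h⟩
      simp only [hn, ← Finset.mul_sum]
      exact inv_mul_cancel₀ hs0.ne'
    have h2 : ∀ z, ‖∑ i, ((√(s⁻¹) : ℝ) : ℂ) * a i * u i z‖ ^ 2 = s⁻¹ * ‖∑ i, a i * u i z‖ ^ 2 := by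
      intro z
      rw [← hn, Finset.mul_sum]
      congr 2
      exact Finset.sum_congr rfl fun i _ => by ring
    simp only [h2] at h1
    rw [integral_const_mul, not_lt] at h1
    have h3 := mul_le_mul_of_nonneg_left h1 hs0.le
    rw [← mul_assoc, mul_inv_cancel₀ hs0.ne', one_mul] at h3
    linarith

/-- The localised inequality. -/
theorem scaled (hd : 1 ≤ d) {N : ℕ} (u : Fin N → (Fin d → ℝ) → ℂ)
    (g : Fin N → Fin d → (Fin d → ℝ) → ℂ) (hu : ∀ i, WGradC (u i) (g i)) (hsub : SubGram u)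
    {φ : (Fin d → ℝ) → ℝ} (hφ : ContDiff ℝ (⊤ : ℕ∞) φ) (hcs : HasCompactSupport φ)
    (h0 : ∀ x, 0 ≤ φ x) (h1 : ∀ x, φ x ≤ 1) (hb : ∀ x, φ x ≠ 0 → ‖x‖ < 1)
    (c : ℝ) (hc : 0 < c) (hc1 : c ≤ 1) (R : ℝ) (hR : 0 < R) :
    Integrable (fun x => rho u x ^ (1 + 2 / (d : ℝ))) ∧
    c ^ (-(2 / (d : ℝ))) * ((3 / 4 : ℝ) ^ (1 / (d : ℝ)) * Kcl d) *
        ((∫ x, (φ x ^ 2) ^ (1 + 2 / (d : ℝ))) * ∫ x, rho u x ^ (1 + 2 / (d : ℝ))) ≤
      (∫ x, φ x ^ 2) * kin g +
        4 / R ^ 2 * ((∑ k, ∫ x, pd k φ x ^ 2) * (∑ i, ∫ x, ‖u i x‖ ^ 2)) +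
      (c ^ (-(2 / (d : ℝ))) - 1) * ((3 / 4 : ℝ) ^ (1 / (d : ℝ)) * Kcl d) *
        ((∫ x, (φ x ^ 2) ^ (1 + 2 / (d : ℝ))) *
          ∫ x in Conc u R c, rho u x ^ (1 + 2 / (d : ℝ))) := by
  set s : ℝ := 2 / R with hs
  have hs0 : 0 < s := by rw [hs]; positivity
  have hχ : ContDiff ℝ (⊤ : ℕ∞) fun x : Fin d → ℝ => φ (s • x) := hφ.comp (contDiff_const_smul s)
  have hχs : HasCompactSupport fun x : Fin d → ℝ => φ (s • x) :=
    hcs.comp_homeomorph (Homeomorph.smulOfNeZero s hs0.ne')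
  have hmeas : MeasurableSet (Conc u R c) :=
    (conc_isOpen u (fun i => (hu i).f2) R c hR).measurableSet
  have key := avg hd u g hu hsub hχ hχs (fun x => h0 _) (fun x => h1 _) c hc hc1 (Conc u R c) hmeas ?_
  · refine ⟨key.1, ?_⟩
    have h2 := key.2
    set m : ℝ := |(s ^ Module.finrank ℝ (Fin d → ℝ))⁻¹| with hm
    have hm0 : 0 < m := by rw [hm]; positivity
    have i1 : ∫ x : Fin d → ℝ, (φ (s • x) ^ 2) ^ (1 + 2 / (d : ℝ)) =
        m * ∫ x, (φ x ^ 2) ^ (1 + 2 / (d : ℝ)) := by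
      have := Measure.integral_comp_smul (volume : Measure (Fin d → ℝ))
        (fun x => (φ x ^ 2) ^ (1 + 2 / (d : ℝ))) s
      rw [smul_eq_mul] at this
      exact this
    have i2 : ∫ x : Fin d → ℝ, φ (s • x) ^ 2 = m * ∫ x, φ x ^ 2 := by
      have := Measure.integral_comp_smul (volume : Measure (Fin d → ℝ)) (fun x => φ x ^ 2) s
      rw [smul_eq_mul] at this
      exact this
    have i3 : ∀ k, ∫ x : Fin d → ℝ, pd k (fun x => φ (s • x)) x ^ 2 =
        s ^ 2 * (m * ∫ x, pd k φ x ^ 2) := by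
      intro k
      have := Measure.integral_comp_smul (volume : Measure (Fin d → ℝ)) (fun x => pd k φ x ^ 2) s
      rw [smul_eq_mul] at this
      rw [← hm] at this
      rw [← this, ← integral_const_mul]
      refine integral_congr_ae (Eventually.of_forall fun x => ?_)
      simp only [pd_scale hφ]
      ring
    simp only [i1, i2, i3] at h2
    have hs2 : s ^ 2 = 4 / R ^ 2 := by
      rw [hs, div_pow]
      norm_num
    rw [← Finset.mul_sum, ← Finset.mul_sum, hs2] at h2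
    refine le_of_mul_le_mul_left ?_ hm0
    refine le_trans (le_of_eq ?_) (le_trans h2 (le_of_eq ?_)) <;> ring
  · intro x y hx hxy a
    have h3 := spread u R c hc.le hx a
    refine le_trans ?_ h3
    have hF : Integrable fun z => ‖∑ i, a i * u i z‖ ^ 2 :=
      (sum_memLp u (fun i => (hu i).f2) a).integrable_norm_pow two_ne_zero
    have hball : ∀ z y : Fin d → ℝ, φ (s • (z - y)) ≠ 0 → ‖z - y‖ < R / 2 := by
      intro z y hz
      have h4 := hb _ hz
      rw [norm_smul, Real.norm_of_nonneg hs0.le, hs, div_mul_eq_mul_div, div_lt_one hR] at h4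
      linarith
    rw [← integral_indicator Metric.isOpen_ball.measurableSet]
    refine integral_mono ?_ (hF.indicator Metric.isOpen_ball.measurableSet) fun z => ?_
    · have hχ2 : HasCompactSupport fun x : Fin d → ℝ => φ (s • x) ^ 2 :=
        hχs.comp_left (g := fun t : ℝ => t ^ 2) (by norm_num)
      have hχ3 : Continuous fun x : Fin d → ℝ => φ (s • x) ^ 2 := hχ.continuous.pow 2
      exact av_integrand hχ3 hχ2 hF y
    · show φ (s • (z - y)) ^ 2 * ‖∑ i, a i * u i z‖ ^ 2 ≤ _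
      by_cases hz : z ∈ Metric.ball x R
      · rw [indicator_of_mem hz]
        have h6 : φ (s • (z - y)) ^ 2 ≤ 1 := pow_le_one₀ (h0 _) (h1 _)
        calc φ (s • (z - y)) ^ 2 * ‖∑ i, a i * u i z‖ ^ 2 ≤ 1 * ‖∑ i, a i * u i z‖ ^ 2 :=
              mul_le_mul_of_nonneg_right h6 (by positivity)
          _ = _ := one_mul _
      · rw [indicator_of_notMem hz]
        have h7 : φ (s • (z - y)) = 0 := by
          by_contra h8
          apply hz
          rw [Metric.mem_ball, dist_eq_norm]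
          have h9 := hball z y h8
          have h10 := hball x y hxy
          calc ‖z - x‖ = ‖(z - y) - (x - y)‖ := by congr 1; abel
            _ ≤ ‖z - y‖ + ‖x - y‖ := norm_sub_le _ _
            _ < R := by linarith
        rw [h7]
        simp

end Pool.Agent.N96.LF
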