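import Pool.Agent.N96.LF.E

/-! The proportion of the concentration points in violations of the semiclassical inequality. -/

set_option autoImplicit false

open MeasureTheory Set Filter Topology Real

namespace Pool.Agent.N96.LF

open LTd Pool.Agent.R282.KO

variable {d : ℕ}

theorem norm_one {u : (Fin d → ℝ) → ℂ} (h : ∫ x, (starRingEnd ℂ) (u x) * u x = 1) :
    ∫ x, ‖u x‖ ^ 2 = 1 := by
  have h1 : ∀ x, (starRingEnd ℂ) (u x) * u x = ((‖u x‖ ^ 2 : ℝ) : ℂ) := by
    intro x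
    rw [← Complex.normSq_eq_conj_mul_self, Complex.normSq_eq_norm_sq]
  simp only [h1] at h
  rw [integral_complex_ofReal] at h
  exact_mod_cast h

theorem main (hd : 1 ≤ d) (c τ α : ℝ) (hc : 0 < c) (hc1' : c < 1) (hτ : 0 < τ)
    (hc2 : c ^ 2 * τ ^ d < 3 / 4)
    (hα : α * (c ^ (-(2 / (d : ℝ))) - 1) < c ^ (-(2 / (d : ℝ))) - τ * (4 / 3) ^ (1 / (d : ℝ))) :
    ∃ Λ : ℝ, 0 < Λ ∧ ∀ (N : ℕ) (u : Fin N → (Fin d → ℝ) → ℂ)
      (g : Fin N → Fin d → (Fin d → ℝ) → ℂ), (∀ i, WGradC (u i) (g i)) →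
      (∀ i j, ∫ x, (starRingEnd ℂ) (u i x) * u j x = if i = j then 1 else 0) →
      ∀ R : ℝ, 0 < R → Λ * N ≤ R ^ 2 * kin g →
      Integrable (fun x => rho u x ^ (1 + 2 / (d : ℝ))) ∧
      (kin g < τ * Kcl d * ∫ x, rho u x ^ (1 + 2 / (d : ℝ)) →
        α * ∫ x, rho u x ^ (1 + 2 / (d : ℝ)) ≤
          ∫ x in Conc u R c, rho u x ^ (1 + 2 / (d : ℝ))) ∧
      (Conc u R c = ∅ → τ * Kcl d * ∫ x, rho u x ^ (1 + 2 / (d : ℝ)) ≤ kin g) := by
  have hdR : (0 : ℝ) < d := by exact_mod_cast hd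
  set C : ℝ := c ^ (-(2 / (d : ℝ))) with hC
  set m4 : ℝ := (4 / 3 : ℝ) ^ (1 / (d : ℝ)) with hm4
  set β : ℝ := (3 / 4 : ℝ) ^ (1 / (d : ℝ)) with hβ
  have hβm : β * m4 = 1 := by
    rw [hβ, hm4, ← Real.mul_rpow (by norm_num) (by norm_num)]
    norm_num
  have hβ0 : 0 < β := by rw [hβ]; positivity
  have hm1 : 1 < m4 := Real.one_lt_rpow (by norm_num) (by positivity)
  have hm0 : 0 < m4 := by linarith
  have hτm0 : 0 < τ * m4 := mul_pos hτ hm0
  have hCm : τ * m4 < C := by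
    have h1 : C = ((c ^ 2)⁻¹) ^ (1 / (d : ℝ)) := by
      rw [hC, ← Real.rpow_natCast c 2, ← Real.rpow_neg hc.le, ← Real.rpow_mul hc.le]
      congr 1
      push_cast
      ring
    have h2 : τ * m4 = (τ ^ d * (4 / 3)) ^ (1 / (d : ℝ)) := by
      rw [Real.mul_rpow (by positivity) (by norm_num), ← Real.rpow_natCast τ d,
        ← Real.rpow_mul hτ.le, mul_one_div_cancel hdR.ne', Real.rpow_one]
    rw [h1, h2]
    refine Real.rpow_lt_rpow (by positivity) ?_ (by positivity)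
    rw [lt_inv_comm₀ (by positivity) (by positivity), lt_inv_comm₀ (by positivity) (by positivity)]
    rw [lt_inv_comm₀ (by positivity) (by positivity), ← one_div, lt_div_iff₀ (by positivity)]
    linarith
  have hC1 : 0 < C - 1 := by
    have : 1 < C := by
      rw [hC, Real.rpow_neg hc.le]
      refine (one_lt_inv₀ (Real.rpow_pos_of_pos hc _)).2 ?_
      exact Real.rpow_lt_one hc.le hc1' (by positivity)
    linarith
  have hc1 : c ≤ 1 := hc1'.le
  -- the parameters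
  set α1 : ℝ := (C - τ * m4) / (2 * (C - 1)) with hα1
  have hα10 : 0 < α1 := div_pos (by linarith) (by linarith)
  have hα11 : α1 * (C - 1) < C - τ * m4 := by
    have : α1 * (C - 1) = (C - τ * m4) / 2 := by
      rw [hα1]
      field_simp
    rw [this]
    linarith
  set α' : ℝ := max α α1 with hα'
  have hα'0 : 0 < α' := lt_of_lt_of_le hα10 (le_max_right _ _)
  have hα'1 : α' * (C - 1) < C - τ * m4 := by
    rcases max_cases α α1 with h | h
    · rw [hα', h.1]; exact hα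
    · rw [hα', h.1]; exact hα11
  set κ0 : ℝ := (C - α' * (C - 1)) / (τ * m4) with hκ0
  have hκ0m : κ0 * (τ * m4) = C - α' * (C - 1) := by
    rw [hκ0]
    exact div_mul_cancel₀ _ hτm0.ne'
  have hκ01 : 1 < κ0 := by
    rw [hκ0, one_lt_div hτm0]
    linarith
  set κ : ℝ := √κ0 with hκ
  have hκ1 : 1 < κ := Real.lt_sqrt_of_sq_lt (by linarith)
  have hκκ : κ * κ = κ0 := Real.mul_self_sqrt (by linarith)
  obtain ⟨φ, hφ, hcs, hφ0, hφ1, hb, hW, hW2⟩ := bump hd κ hκ1
  set W : ℝ := ∫ x, (φ x ^ 2) ^ (1 + 2 / (d : ℝ)) with hWd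
  set D : ℝ := ∑ k, ∫ x, pd k φ x ^ 2 with hD
  have hD0 : 0 ≤ D := Finset.sum_nonneg fun k _ => integral_nonneg fun x => sq_nonneg _
  have hden : 0 < (κ - 1) * κ * W := mul_pos (mul_pos (by linarith) (by linarith)) hW
  refine ⟨4 * D / ((κ - 1) * κ * W) + 1, by positivity, fun N u g hu ho R hR hΛ => ?_⟩
  set Λ : ℝ := 4 * D / ((κ - 1) * κ * W) + 1 with hΛd
  have hΛ0 : 0 < Λ := by rw [hΛd]; positivity
  have hsc := scaled hd u g hu (sub_of_ortho u (fun i => (hu i).f2) ho) hφ hcs hφ0 hφ1 hb c hc hc1 R hR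
  have hI0 : 0 ≤ ∫ x, rho u x ^ (1 + 2 / (d : ℝ)) :=
    integral_nonneg fun x => Real.rpow_nonneg (rho_nonneg u x) _
  set I : ℝ := ∫ x, rho u x ^ (1 + 2 / (d : ℝ)) with hI
  set IS : ℝ := ∫ x in Conc u R c, rho u x ^ (1 + 2 / (d : ℝ)) with hIS
  have hT0 : 0 ≤ kin g := Finset.sum_nonneg fun i _ => Finset.sum_nonneg fun k _ =>
    integral_nonneg fun x => by positivity
  have hN : ∑ i, ∫ x, ‖u i x‖ ^ 2 = (N : ℝ) := by
    have : ∀ i, ∫ x, ‖u i x‖ ^ 2 = 1 := fun i => norm_one (by rw [ho i i, if_pos rfl])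
    simp [this]
  have h1 := hsc.2
  rw [hN, ← hβ] at h1
  -- the error term
  have herr : 4 / R ^ 2 * (D * (N : ℝ)) ≤ (κ - 1) * κ * W * kin g := by
    have h2 : (N : ℝ) ≤ R ^ 2 * kin g / Λ := by
      rw [le_div_iff₀ hΛ0]
      linarith
    have h3 : 4 * D ≤ (κ - 1) * κ * W * Λ := by
      rw [hΛd, mul_add, mul_div_cancel₀ _ hden.ne']
      linarith
    calc 4 / R ^ 2 * (D * (N : ℝ)) ≤ 4 / R ^ 2 * (D * (R ^ 2 * kin g / Λ)) := by gcongr
      _ = 4 * D * (kin g / Λ) := by field_simp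
      _ ≤ (κ - 1) * κ * W * Λ * (kin g / Λ) := by gcongr
      _ = (κ - 1) * κ * W * kin g := by field_simp
  have h4 : (∫ x, φ x ^ 2) * kin g ≤ κ * W * kin g := mul_le_mul_of_nonneg_right hW2 hT0
  have h5 : C * (β * Kcl d) * (W * I) ≤
      κ0 * (W * kin g) + (C - 1) * (β * Kcl d) * (W * IS) := by
    have : κ * W * kin g + (κ - 1) * κ * W * kin g = κ0 * (W * kin g) := by
      rw [← hκκ]; ring
    linarith
  have hviol : kin g < τ * Kcl d * I → α' * I ≤ IS := by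
    intro hv
    have hKI : 0 < τ * Kcl d * I := lt_of_le_of_lt hT0 hv
    have hK : 0 < Kcl d := by
      rcases (kcl_nonneg d).eq_or_lt with h | h
      · rw [← h, mul_zero, zero_mul] at hKI
        exact absurd hKI (lt_irrefl _)
      · exact h
    have h6 : κ0 * (W * kin g) ≤ κ0 * (W * (τ * Kcl d * I)) := by
      have : 0 ≤ κ0 * W := mul_nonneg (by linarith) hW.le
      nlinarith
    have h7 : C * (β * Kcl d) * (W * I) ≤
        κ0 * (W * (τ * Kcl d * I)) + (C - 1) * (β * Kcl d) * (W * IS) := le_trans h5 (by linarith)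
    have hpos : 0 < β * Kcl d * W := mul_pos (mul_pos hβ0 hK) hW
    have h8 : (β * Kcl d * W) * ((C - 1) * (α' * I)) ≤ (β * Kcl d * W) * ((C - 1) * IS) := by
      have e1 : κ0 * (W * (τ * Kcl d * I)) = (β * Kcl d * W) * ((C - α' * (C - 1)) * I) := by
        rw [← hκ0m]
        calc κ0 * (W * (τ * Kcl d * I)) = (β * m4) * (κ0 * (W * (τ * Kcl d * I))) := by
              rw [hβm, one_mul]
          _ = _ := by ring
      rw [e1] at h7
      linarith
    have h9 := le_of_mul_le_mul_left h8 hpos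
    exact le_of_mul_le_mul_left h9 hC1
  refine ⟨hsc.1, fun hv => ?_, fun hemp => ?_⟩
  · exact le_trans (mul_le_mul_of_nonneg_right (le_max_left _ _) hI0) (hviol hv)
  · by_contra hlt
    rw [not_le] at hlt
    have h10 := hviol hlt
    have h11 : IS = 0 := by
      rw [hIS, hemp]
      simp
    rw [h11] at h10
    have h12 : I ≤ 0 := by
      by_contra h
      rw [not_le] at h
      have := mul_pos hα'0 h
      linarith
    have h13 : I = 0 := le_antisymm h12 hI0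
    rw [h13, mul_zero] at hlt
    linarith

end Pool.Agent.N96.LF
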